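import Pool.Agent.W553.PM.StmB

set_option autoImplicit false

namespace Pool.Agent.W509.PMB

open Set Filter Topology Pool.Agent.W553.PMB

theorem D_eq (Λ : ℝ) (hΛ : 0 < Λ) (x : ℝ) :
    (⨅ k : ℤ, |x - k * Λ|) = ‖(x : AddCircle Λ)‖ := by
  rw [AddCircle.norm_eq]
  apply le_antisymm
  · apply ciInf_le
    exact ⟨0, by rintro _ ⟨k, rfl⟩; exact abs_nonneg _⟩
  · apply le_ciInf
    intro k
    have h := round_le (Λ⁻¹ * x) k
    have h2 : |x - round (Λ⁻¹ * x) * Λ| = Λ * |Λ⁻¹ * x - round (Λ⁻¹ * x)| := by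
      rw [← abs_of_pos hΛ, ← abs_mul, abs_of_pos hΛ]
      congr 1
      field_simp
    have h3 : |x - k * Λ| = Λ * |Λ⁻¹ * x - k| := by
      rw [← abs_of_pos hΛ, ← abs_mul, abs_of_pos hΛ]
      congr 1
      field_simp
    rw [h2, h3]
    exact mul_le_mul_of_nonneg_left h hΛ.le

theorem norm_min (Λ : ℝ) (hΛ : 0 < Λ) (x : ℝ) (hx : |x| ≤ Λ) :
    ‖(x : AddCircle Λ)‖ = min |x| (Λ - |x|) := by
  by_cases h : |x| ≤ Λ / 2
  · rw [(AddCircle.norm_coe_eq_abs_iff Λ hΛ.ne').2 (by rwa [abs_of_pos hΛ]), min_eq_left]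
    linarith
  · push Not at h
    rw [min_eq_right (by linarith)]
    rcases le_total 0 x with h0 | h0
    · rw [abs_of_nonneg h0] at h hx ⊢
      have : (x : AddCircle Λ) = ((x - Λ : ℝ) : AddCircle Λ) := by
        rw [AddCircle.coe_sub, AddCircle.coe_period, sub_zero]
      rw [this, (AddCircle.norm_coe_eq_abs_iff Λ hΛ.ne').2, abs_of_nonpos (by linarith)]
      · ring
      · rw [abs_of_pos hΛ, abs_of_nonpos (by linarith)]; linarith
    · rw [abs_of_nonpos h0] at h hx ⊢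
      have : (x : AddCircle Λ) = ((x + Λ : ℝ) : AddCircle Λ) := by
        rw [AddCircle.coe_add, AddCircle.coe_period, add_zero]
      rw [this, (AddCircle.norm_coe_eq_abs_iff Λ hΛ.ne').2, abs_of_nonneg (by linarith)]
      · ring
      · rw [abs_of_pos hΛ, abs_of_nonneg (by linarith)]; linarith

theorem mono_ext {f : ℝ → ℝ} {a b : ℝ} (hab : a < b) (hc : ContinuousOn f (Icc a b))
    (hm : StrictMonoOn f (Ioo a b)) : StrictMonoOn f (Icc a b) := by
  have h1 : ∀ x ∈ Icc a b, ∀ u ∈ Ioo a b, x < u → f x ≤ f u := by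
    intro x hx u hu hxu
    rcases eq_or_lt_of_le hx.1 with h | h
    · subst h
      have ht : Tendsto f (𝓝[>] a) (𝓝 (f a)) :=
        (hc a hx).mono_left (by
          rw [← nhdsWithin_Ioo_eq_nhdsGT hab]
          exact nhdsWithin_mono _ Ioo_subset_Icc_self)
      refine le_of_tendsto ht ?_
      filter_upwards [Ioo_mem_nhdsGT hxu] with s hs
      exact (hm ⟨hs.1, hs.2.trans hu.2⟩ hu hs.2).le
    · exact (hm ⟨h, hxu.trans hu.2⟩ hu hxu).le
  have h2 : ∀ x ∈ Icc a b, ∀ u ∈ Ioo a b, u < x → f u ≤ f x := by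
    intro x hx u hu hxu
    rcases eq_or_lt_of_le hx.2 with h | h
    · subst h
      have ht : Tendsto f (𝓝[<] x) (𝓝 (f x)) :=
        (hc x hx).mono_left (by
          rw [← nhdsWithin_Ioo_eq_nhdsLT hab]
          exact nhdsWithin_mono _ Ioo_subset_Icc_self)
      refine ge_of_tendsto ht ?_
      filter_upwards [Ioo_mem_nhdsLT hxu] with s hs
      exact (hm hu ⟨hu.1.trans hs.1, hs.2⟩ hs.1).le
    · exact (hm hu ⟨hu.1.trans hxu, h⟩ hxu).le
  intro x hx y hy hxy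
  obtain ⟨u, hu1, hu2⟩ := exists_between hxy
  obtain ⟨v, hv1, hv2⟩ := exists_between hu2
  have hu : u ∈ Ioo a b := ⟨lt_of_le_of_lt hx.1 hu1, lt_of_lt_of_le hu2 hy.2⟩
  have hv : v ∈ Ioo a b := ⟨hu.1.trans hv1, lt_of_lt_of_le hv2 hy.2⟩
  calc f x ≤ f u := h1 x hx u hu hu1
    _ < f v := hm hu hv hv1
    _ ≤ f y := h2 y hy v hv hv2

theorem core (Λ : ℝ) (hΛ : 0 < Λ) (l : ℝ → ℝ) (hc : ContinuousOn l (Icc 0 Real.pi))
    (hm : StrictMonoOn l (Icc 0 Real.pi)) (h0 : l 0 = 0)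
    (hz : ∀ s ∈ Icc 0 Real.pi, ∀ t ∈ Icc 0 Real.pi, (‖((l s - l t : ℝ) : AddCircle Λ)‖ = 0 ↔
      (s = t ∨ (s = 0 ∧ t = Real.pi) ∨ (s = Real.pi ∧ t = 0)))) :
    l Real.pi = Λ ∧ ∀ s ∈ Icc 0 Real.pi, ∀ t ∈ Icc 0 Real.pi,
      ‖((l s - l t : ℝ) : AddCircle Λ)‖ = min |l s - l t| (Λ - |l s - l t|) := by
  have hpi := Real.pi_pos
  have m0 : (0 : ℝ) ∈ Icc 0 Real.pi := ⟨le_rfl, hpi.le⟩
  have mpi : Real.pi ∈ Icc 0 Real.pi := ⟨hpi.le, le_rfl⟩
  have hpos : 0 < l Real.pi := by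
    have := hm m0 mpi hpi
    rwa [h0] at this
  have hL : l Real.pi = Λ := by
    have h1 := (hz Real.pi mpi 0 m0).2 (Or.inr (Or.inr ⟨rfl, rfl⟩))
    rw [norm_eq_zero, h0, sub_zero, AddCircle.coe_eq_zero_iff] at h1
    obtain ⟨k, hk⟩ := h1
    rw [zsmul_eq_mul] at hk
    have hk0 : 0 < k := by
      by_contra hcon
      push Not at hcon
      have : (k : ℝ) ≤ 0 := by exact_mod_cast hcon
      nlinarith
    have hk1 : k = 1 := by
      by_contra hcon
      have hk2 : 2 ≤ k := by omega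
      have hk2' : (2 : ℝ) ≤ k := by exact_mod_cast hk2
      have hlt : Λ < l Real.pi := by nlinarith
      obtain ⟨t, ht, hlt2⟩ := intermediate_value_Icc hpi.le hc
        (show Λ ∈ Icc (l 0) (l Real.pi) from ⟨by rw [h0]; exact hΛ.le, hlt.le⟩)
      have h2 : ‖((l t - l 0 : ℝ) : AddCircle Λ)‖ = 0 := by
        rw [hlt2, h0, sub_zero, AddCircle.coe_period, norm_zero]
      rcases (hz t ht 0 m0).1 h2 with h | h | h
      · rw [h, h0] at hlt2; exact hΛ.ne hlt2
      · exact hpi.ne h.2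
      · rw [h.1] at hlt2; exact hlt.ne' hlt2
    rw [← hk, hk1]; simp
  refine ⟨hL, fun s hs t ht => ?_⟩
  apply norm_min Λ hΛ
  have b : ∀ s ∈ Icc 0 Real.pi, 0 ≤ l s ∧ l s ≤ Λ := by
    intro s hs
    constructor
    · rw [← h0]; exact hm.monotoneOn m0 hs hs.1
    · rw [← hL]; exact hm.monotoneOn hs mpi hs.2
  have h1 := b s hs
  have h2 := b t ht
  rw [abs_le]
  constructor <;> linarith

theorem T_circ : S_circ := by
  intro Λ hΛ g hc hz _
  have hpi := Real.pi_pos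
  simp_rw [D_eq Λ hΛ] at hc hz ⊢
  have m0 : (0 : ℝ) ∈ Icc 0 Real.pi := ⟨le_rfl, hpi.le⟩
  -- the path in the circle
  have hG : ContinuousOn (fun t => (g t : AddCircle Λ)) (Icc 0 Real.pi) := by
    intro t ht
    rw [ContinuousWithinAt, tendsto_iff_norm_sub_tendsto_zero]
    have h1 : ContinuousOn (fun s : ℝ => ‖((g s - g t : ℝ) : AddCircle Λ)‖) (Icc 0 Real.pi) := by
      have := hc.comp (f := fun s : ℝ => (s, t)) (s := Icc 0 Real.pi)
        (by fun_prop) (fun s hs => ⟨hs, ht⟩)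
      exact this
    have h2 := h1 t ht
    have h3 : ‖((g t - g t : ℝ) : AddCircle Λ)‖ = 0 := by simp
    rw [ContinuousWithinAt, h3] at h2
    simpa only [AddCircle.coe_sub] using h2
  let γ : C(unitInterval, AddCircle Λ) :=
    ⟨fun u => (g (Real.pi * u) : AddCircle Λ), by
      have : ContinuousOn (fun u : ℝ => (g (Real.pi * u) : AddCircle Λ)) unitInterval := by
        refine hG.comp (f := fun u : ℝ => Real.pi * u) (by fun_prop) ?_
        intro u hu
        exact ⟨mul_nonneg hpi.le hu.1, by nlinarith [hu.2]⟩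
      exact this.domRestrict⟩
  have hcov : IsCoveringMap ((↑) : ℝ → AddCircle Λ) := AddCircle.isCoveringMap_coe Λ
  obtain ⟨Γ, hΓ1, hΓ2⟩ := hcov.exists_path_lifts γ (g 0) (by simp [γ])
  let h : ℝ → ℝ := fun t => Γ (projIcc 0 1 zero_le_one (t / Real.pi))
  have hh : Continuous h := by fun_prop
  have hhg : ∀ t ∈ Icc 0 Real.pi, (h t : AddCircle Λ) = (g t : AddCircle Λ) := by
    intro t ht
    have h1 : t / Real.pi ∈ Icc (0 : ℝ) 1 :=
      ⟨div_nonneg ht.1 hpi.le, by rw [div_le_one hpi]; exact ht.2⟩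
    have h2 := congrFun hΓ1 ⟨t / Real.pi, h1⟩
    simp only [Function.comp, γ, ContinuousMap.coe_mk] at h2
    simp only [h, projIcc_of_mem zero_le_one h1]
    rw [h2]
    congr 2
    field_simp
  have hinj : InjOn h (Ioo 0 Real.pi) := by
    intro s hs t ht hst
    have hs' := Ioo_subset_Icc_self hs
    have ht' := Ioo_subset_Icc_self ht
    have : ‖((g s - g t : ℝ) : AddCircle Λ)‖ = 0 := by
      rw [AddCircle.coe_sub, ← hhg s hs', ← hhg t ht', hst, sub_self, norm_zero]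
    rcases (hz s hs' t ht').1 this with h | h | h
    · exact h
    · exact absurd h.1 hs.1.ne'
    · exact absurd h.2 ht.1.ne'
  have hD : ∀ s ∈ Icc 0 Real.pi, ∀ t ∈ Icc 0 Real.pi,
      ‖((g s - g t : ℝ) : AddCircle Λ)‖ = ‖((h s - h t : ℝ) : AddCircle Λ)‖ := by
    intro s hs t ht
    rw [AddCircle.coe_sub, AddCircle.coe_sub, hhg s hs, hhg t ht]
  rcases hh.continuousOn.strictMonoOn_of_injOn_Ioo hpi hinj with hm | hm
  · have hm' := mono_ext hpi hh.continuousOn hm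
    have hD2 : ∀ s ∈ Icc 0 Real.pi, ∀ t ∈ Icc 0 Real.pi,
        ‖((g s - g t : ℝ) : AddCircle Λ)‖ =
          ‖(((h s - h 0) - (h t - h 0) : ℝ) : AddCircle Λ)‖ := by
      intro s hs t ht
      rw [hD s hs t ht, sub_sub_sub_cancel_right]
    have hmm : StrictMonoOn (fun t => h t - h 0) (Icc 0 Real.pi) :=
      fun s hs t ht hst => by simpa using hm' hs ht hst
    obtain ⟨c1, c2⟩ := core Λ hΛ (fun t => h t - h 0) (by fun_prop) hmm (by simp) (by
      intro s hs t ht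
      rw [← hD2 s hs t ht]
      exact hz s hs t ht)
    exact ⟨fun t => h t - h 0, by fun_prop, hmm, by simp, c1, fun s hs t ht => by
      rw [hD2 s hs t ht]; exact c2 s hs t ht⟩
  · have hm' : StrictMonoOn (fun t => - h t) (Icc 0 Real.pi) :=
      mono_ext hpi (by fun_prop) (fun s hs t ht hst => by simpa using hm hs ht hst)
    have hD2 : ∀ s ∈ Icc 0 Real.pi, ∀ t ∈ Icc 0 Real.pi,
        ‖((g s - g t : ℝ) : AddCircle Λ)‖ =
          ‖(((h 0 - h s) - (h 0 - h t) : ℝ) : AddCircle Λ)‖ := by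
      intro s hs t ht
      rw [hD s hs t ht, sub_sub_sub_cancel_left, ← neg_sub, AddCircle.coe_neg, norm_neg]
    have hmm : StrictMonoOn (fun t => h 0 - h t) (Icc 0 Real.pi) :=
      fun s hs t ht hst => by
        have := hm' hs ht hst
        simp only at this ⊢
        linarith
    obtain ⟨c1, c2⟩ := core Λ hΛ (fun t => h 0 - h t) (by fun_prop) hmm (by simp) (by
      intro s hs t ht
      rw [← hD2 s hs t ht]
      exact hz s hs t ht)
    exact ⟨fun t => h 0 - h t, by fun_prop, hmm, by simp, c1, fun s hs t ht => by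
      rw [hD2 s hs t ht]; exact c2 s hs t ht⟩

end Pool.Agent.W509.PMB
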